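import Pool.Agent.Helper13.TD.DR

/-!
# Bounded data almost everywhere and polynomial identities in ultrapowers
-/

universe u v w

namespace Pool.Agent.PC

open Pool.Agent.Helper37.UL Pool.Agent.TD

variable {J : Type v} {U : Ultrafilter J} {C : Type u} [Field C] {S : Type w} [Field S]
  {π : (J → C) →+* S}

/-- UP4: transfer of bounded data, almost everywhere. -/
theorem up_data_ev (h : UP U π) {κ Kg : Subfield C} {t : C} {D d p B m r : ℕ}
    {c : J → Fin (d + 1) → Fin (m + 1) → C} {v : J → Fin r → C} {w : J → C}
    (hl : ∀ᶠ a in (U : Filter J), DataR κ Kg t D d p B (c a) (v a) (w a)) :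
    DataR (h.gsub κ) (h.gsub Kg) (UP.cst π t) D d p B (fun i l => π fun a => c a i l)
      (fun j => π fun a => v a j) (π w) := by
  classical
  obtain ⟨a₀, h₀⟩ := hl.exists
  let f : J → J := fun a => if DataR κ Kg t D d p B (c a) (v a) (w a) then a else a₀
  have hf : ∀ a, DataR κ Kg t D d p B (c (f a)) (v (f a)) (w (f a)) := by
    intro a
    by_cases ha : DataR κ Kg t D d p B (c a) (v a) (w a)
    · have : f a = a := if_pos ha
      rw [this]
      exact ha
    · have : f a = a₀ := if_neg ha
      rw [this]
      exact h₀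
  have hff : ∀ᶠ a in (U : Filter J), f a = a := by
    filter_upwards [hl] with a ha using if_pos ha
  have h1 := up_data h hf
  have e1 : (fun i l => π fun a => c (f a) i l) = fun i l => π fun a => c a i l := by
    funext i l
    rw [h.eq_iff]
    filter_upwards [hff] with a ha
    rw [ha]
  have e2 : (fun j => π fun a => v (f a) j) = fun j => π fun a => v a j := by
    funext j
    rw [h.eq_iff]
    filter_upwards [hff] with a ha
    rw [ha]
  have e3 : (π fun a => w (f a)) = π w := by
    rw [h.eq_iff]
    filter_upwards [hff] with a ha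
    rw [ha]
  rw [e1, e2, e3] at h1
  exact h1

/-- UP5: polynomial identities (Los). -/
theorem los_pol (h : UP U π) (P : MvPolynomial (Fin 2) (J → C))
    (hP : MvPolynomial.map π P = 0) :
    ∀ᶠ a in (U : Filter J), MvPolynomial.map (Pi.evalRingHom (fun _ => C) a) P = 0 := by
  have h1 : ∀ m ∈ P.support, ∀ᶠ a in (U : Filter J), P.coeff m a = 0 := by
    intro m _
    rw [← h.eq0]
    have h2 := congrArg (MvPolynomial.coeff m) hP
    rwa [MvPolynomial.coeff_map, MvPolynomial.coeff_zero] at h2
  have h2 : ∀ᶠ a in (U : Filter J), ∀ m ∈ P.support, P.coeff m a = 0 :=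
    (Filter.eventually_all_finset P.support).mpr h1
  filter_upwards [h2] with a ha
  ext m
  rw [MvPolynomial.coeff_map, MvPolynomial.coeff_zero]
  by_cases hm : m ∈ P.support
  · exact ha m hm
  · rw [MvPolynomial.notMem_support_iff.mp hm]
    rfl

end Pool.Agent.PC
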