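import Pool.Agent.Helper37.UL.Germ5
import Pool.Agent.Helper37.UL.Star1

/-!
# Automorphisms of ultrapowers and internal automorphisms
-/

universe u v w

namespace Pool.Agent.PC

open Pool.Agent.Helper37.UL Polynomial

variable {J : Type v} {U : Ultrafilter J} {C : Type u} [Field C] {S : Type w} [Field S]
  {π : (J → C) →+* S}

/-- internal automorphisms can be composed -/
theorem Internal.trans {k : Subfield C} {T T' : S ≃+* S} (hT : UP.Internal π k T)
    (hT' : UP.Internal π k T') : UP.Internal π k (T.trans T') := by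
  obtain ⟨τ, hτ, hτ2⟩ := hT
  obtain ⟨ρ, hρ, hρ2⟩ := hT'
  refine ⟨fun a => (τ a).trans (ρ a), fun a x hx => ?_, fun f => ?_⟩
  · rw [RingEquiv.trans_apply, hτ a x hx, hρ a x hx]
  · rw [RingEquiv.trans_apply, hτ2, hρ2]
    rfl

/-- the identity is internal -/
theorem Internal.refl (k : Subfield C) : UP.Internal π k (RingEquiv.refl S) :=
  ⟨fun _ => RingEquiv.refl C, fun _ _ _ => rfl, fun _ => rfl⟩

/-- elements fixed by all internal automorphisms -/
theorem mem_gsub_of_fixed [IsAlgClosed C] [CharZero C] (h : UP U π) {k : Subfield C}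
    (hC : ∀ x : C, IsAlgebraic k x) {z : S}
    (hz : ∀ T : S ≃+* S, UP.Internal π k T → T z = z) : z ∈ h.gsub k := by
  have h1 := h.mem_of_internal hC (β := 0) (z := z) isAlgebraic_zero (fun T hT _ => hz T hT)
  have h2 : Subfield.closure ((h.gsub k : Set S) ∪ {0}) ≤ h.gsub k := by
    rw [Subfield.closure_le]
    rintro x (hx | rfl)
    · exact hx
    · exact (h.gsub k).zero_mem
  exact h2 h1

/-- the conjugates of an algebraic element over `h.gsub k` are its images under internal
automorphisms -/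
theorem exists_internal_root [IsAlgClosed C] [CharZero C] (h : UP U π) {k : Subfield C}
    (hC : ∀ x : C, IsAlgebraic k x) {β β' : S} (hβ : IsAlgebraic (h.gsub k) β)
    (hβ' : aeval β' (minpoly (h.gsub k) β) = 0) :
    ∃ T : S ≃+* S, UP.Internal π k T ∧ T β = β' := by
  classical
  have hint := hβ.isIntegral
  have hsub : ∀ T : S ≃+* S, UP.Internal π k T → ∀ r : S,
      aeval r (minpoly (h.gsub k) β) = 0 → aeval (T r) (minpoly (h.gsub k) β) = 0 := by
    intro T hT r hr
    rw [← map_aeval (fun y hy => UP.Internal.fix h hT hy), hr, map_zero]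
  let R : Finset S := ((minpoly (h.gsub k) β).aroots S).toFinset
  have hR : ∀ y, y ∈ R ↔ aeval y (minpoly (h.gsub k) β) = 0 := by
    intro y
    rw [Multiset.mem_toFinset, mem_aroots]
    exact ⟨fun hh => hh.2, fun hh => ⟨minpoly.ne_zero hint, hh⟩⟩
  let O : Finset S := R.filter fun y => ∃ T : S ≃+* S, UP.Internal π k T ∧ T β = y
  have hO : ∀ y, y ∈ O ↔ ∃ T : S ≃+* S, UP.Internal π k T ∧ T β = y := by
    intro y
    rw [Finset.mem_filter]
    refine ⟨fun hh => hh.2, fun hh => ⟨?_, hh⟩⟩
    obtain ⟨T, hT, rfl⟩ := hh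
    rw [hR]
    exact hsub T hT β (minpoly.aeval _ _)
  have hβO : β ∈ O := (hO β).mpr ⟨RingEquiv.refl S, Internal.refl k, rfl⟩
  have hOT : ∀ T : S ≃+* S, UP.Internal π k T → O.image T = O := by
    intro T hT
    apply Finset.eq_of_subset_of_card_le
    · intro y hy
      obtain ⟨x, hx, rfl⟩ := Finset.mem_image.mp hy
      obtain ⟨T', hT', rfl⟩ := (hO x).mp hx
      exact (hO _).mpr ⟨T'.trans T, Internal.trans hT' hT, rfl⟩
    · rw [Finset.card_image_of_injective _ T.injective]
  let Q : S[X] := ∏ r ∈ O, (X - Polynomial.C r)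
  have hQT : ∀ T : S ≃+* S, UP.Internal π k T → Q.map (T : S →+* S) = Q := by
    intro T hT
    have h1 : Q.map (T : S →+* S) = ∏ r ∈ O.image T, (X - Polynomial.C r) := by
      rw [Finset.prod_image fun x _ y _ hxy => T.injective hxy, Polynomial.map_prod]
      apply Finset.prod_congr rfl
      intro r _
      rw [Polynomial.map_sub, map_X, map_C]
      rfl
    rw [h1, hOT T hT]
  have hQc : ∀ n, Q.coeff n ∈ h.gsub k := by
    intro n
    apply mem_gsub_of_fixed h hC
    intro T hT
    have h1 := congrArg (fun q => q.coeff n) (hQT T hT)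
    rw [coeff_map] at h1
    exact h1
  have hQl : Q ∈ lifts (algebraMap (h.gsub k) S) := by
    rw [lifts_iff_coeff_lifts]
    intro n
    exact ⟨⟨_, hQc n⟩, rfl⟩
  obtain ⟨q, hq⟩ := hQl
  have hq' : q.map (algebraMap (h.gsub k) S) = Q := hq
  have h1 : aeval β q = 0 := by
    rw [← aeval_map_algebraMap S, hq', map_prod]
    exact Finset.prod_eq_zero hβO (by simp)
  obtain ⟨r, hr⟩ := minpoly.dvd _ β h1
  have h2 : aeval β' q = 0 := by rw [hr, map_mul, hβ', zero_mul]
  rw [← aeval_map_algebraMap S, hq', map_prod, Finset.prod_eq_zero_iff] at h2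
  obtain ⟨y, hy, hy'⟩ := h2
  have h3 : β' = y := by
    rw [map_sub, aeval_X, aeval_C, Algebra.algebraMap_self, RingHom.id_apply] at hy'
    exact sub_eq_zero.mp hy'
  rw [h3]
  exact (hO y).mp hy

/-- UP1: an automorphism over `k0` agrees with an internal automorphism on finitely many algebraic
elements. -/
theorem exists_internal [IsAlgClosed C] [CharZero C] (h : UP U π) {k : Subfield C}
    (hC : ∀ x : C, IsAlgebraic k x) {k0 : Subfield S} (hk0 : k0 ≤ h.gsub k)
    (hrel : ∀ x ∈ h.gsub k, IsAlgebraic k0 x → x ∈ k0) (ρ : S ≃+* S) (hρ : ∀ y ∈ k0, ρ y = y)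
    {N : ℕ} {ψ : Fin N → S} (hψ : ∀ i, IsAlgebraic k0 (ψ i)) :
    ∃ T' : S ≃+* S, UP.Internal π k T' ∧ ∀ i, T' (ψ i) = ρ (ψ i) := by
  have hcz : CharZero S := h.charZero
  obtain ⟨β, hβ, -, hβx⟩ := exists_prim ψ hψ
  have h1 : aeval (ρ β) (minpoly k0 β) = 0 := by
    rw [← map_aeval hρ, minpoly.aeval, map_zero]
  have h2 := root_minpoly hk0 hrel hβ h1
  obtain ⟨T, hT, hTβ⟩ := exists_internal_root h hC (isAlgebraic_mono hk0 hβ) h2
  refine ⟨T, hT, fun i => ?_⟩
  obtain ⟨P, hP⟩ := hβx (ψ i) (Subfield.subset_closure (Or.inr ⟨i, rfl⟩))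
  rw [hP, map_aeval hρ, map_aeval (fun y hy => UP.Internal.fix h hT (hk0 hy)), hTβ]

/-- UP2: elements of `k(v a)` for almost all `a`, the `v` being algebraic. -/
theorem mem_closure [IsAlgClosed C] [CharZero C] (h : UP U π) {k : Subfield C}
    (hC : ∀ x : C, IsAlgebraic k x) {I : Type} [Finite I] {v : J → I → C}
    (hv : ∀ i, IsAlgebraic (h.gsub k) (π fun a => v a i)) {y : J → C}
    (hy : ∀ᶠ a in (U : Filter J), y a ∈ Subfield.closure ((k : Set C) ∪ Set.range (v a))) :
    π y ∈ Subfield.closure ((h.gsub k : Set S) ∪ Set.range fun i => π fun a => v a i) := by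
  have hcz : CharZero S := h.charZero
  obtain ⟨β, hβ, hβm, hβx⟩ := exists_prim (fun i => π fun a => v a i) hv
  have h1 : π y ∈ Subfield.closure ((h.gsub k : Set S) ∪ {β}) := by
    apply h.mem_of_internal hC hβ
    intro T hT hTβ
    have h2 : ∀ i, T (π fun a => v a i) = π fun a => v a i := by
      intro i
      obtain ⟨P, hP⟩ := hβx _ (Subfield.subset_closure (Or.inr ⟨i, rfl⟩))
      have hP' : (π fun a => v a i) = aeval β P := hP
      rw [hP', map_aeval (fun y hy => UP.Internal.fix h hT hy), hTβ]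
    obtain ⟨τ, hτ, hτ'⟩ := hT
    rw [hτ', h.eq_iff]
    have h3 : ∀ᶠ a in (U : Filter J), ∀ i, τ a (v a i) = v a i := by
      rw [Filter.eventually_all]
      intro i
      have h4 := h2 i
      rw [hτ', h.eq_iff] at h4
      exact h4
    filter_upwards [h3, hy] with a ha ha'
    have h5 : Subfield.closure ((k : Set C) ∪ Set.range (v a)) ≤
        RingHom.eqLocusField (τ a : C →+* C) (RingHom.id C) := by
      rw [Subfield.closure_le]
      rintro x (hx | ⟨i, rfl⟩)
      · exact hτ a x hx
      · exact ha i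
    exact h5 ha'
  have h6 : Subfield.closure ((h.gsub k : Set S) ∪ {β}) ≤
      Subfield.closure ((h.gsub k : Set S) ∪ Set.range fun i => π fun a => v a i) := by
    rw [Subfield.closure_le]
    rintro x (hx | rfl)
    · exact Subfield.subset_closure (Or.inl hx)
    · exact hβm
  exact h6 h1

end Pool.Agent.PC
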