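import Pool.Agent.Helper37.UL.Germ1

/-!
# Relations of bounded degree and a polynomial of bad values
-/

universe u v w

namespace Pool.Agent.PC

open Pool.Agent.Helper37.UL Polynomial

/-- quotients of polynomials -/
theorem exists_frac {S : Type w} [Field S] {κ0 : Subfield S} {t z : S}
    (hz : z ∈ Subfield.closure ((κ0 : Set S) ∪ {t})) :
    ∃ F G : κ0[X], aeval t G ≠ 0 ∧ z * aeval t G = aeval t F := by
  obtain ⟨y, hy, w, hw, rfl⟩ := Subfield.mem_closure_iff.1 hz
  have hle : Subring.closure ((κ0 : Set S) ∪ {t}) ≤ (aeval t : κ0[X] →ₐ[κ0] S).toRingHom.range := by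
    rw [Subring.closure_le]
    rintro x (hx | rfl)
    · exact ⟨Polynomial.C ⟨x, hx⟩, by
        change aeval t (Polynomial.C (⟨x, hx⟩ : κ0)) = x
        rw [aeval_C]
        rfl⟩
    · exact ⟨X, by
        change aeval x (X : κ0[X]) = x
        rw [aeval_X]⟩
  obtain ⟨F, hF⟩ := hle hy
  obtain ⟨G, hG⟩ := hle hw
  change aeval t F = y at hF
  change aeval t G = w at hG
  by_cases h0 : w = 0
  · refine ⟨0, 1, ?_, ?_⟩
    · rw [map_one]
      exact one_ne_zero
    · rw [h0, div_zero, zero_mul, map_zero]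
  · refine ⟨F, G, ?_, ?_⟩
    · rwa [hG]
    · rw [hG, hF]
      exact div_mul_cancel₀ _ h0

/-- relations with polynomial coefficients -/
theorem exists_rel {S : Type w} [Field S] {κ0 : Subfield S} {t y : S}
    (hy : IsAlgebraic (Subfield.closure ((κ0 : Set S) ∪ {t})) y) :
    ∃ (n : ℕ) (A : ℕ → κ0[X]), A n ≠ 0 ∧ ∑ l ∈ Finset.range (n + 1), aeval t (A l) * y ^ l = 0 := by
  classical
  obtain ⟨P, hP0, hP⟩ := hy
  choose F G hG hFG using fun l => exists_frac (P.coeff l).2
  set n := P.natDegree with hn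
  let A : ℕ → κ0[X] := fun l => F l * ∏ j ∈ (Finset.range (n + 1)).erase l, G j
  have hA : ∀ l ∈ Finset.range (n + 1), aeval t (A l) =
      (P.coeff l : S) * ∏ j ∈ Finset.range (n + 1), aeval t (G j) := by
    intro l hl
    rw [← Finset.mul_prod_erase _ _ hl, ← mul_assoc, hFG, map_mul, map_prod]
  have hprod : ∏ j ∈ Finset.range (n + 1), aeval t (G j) ≠ 0 :=
    Finset.prod_ne_zero_iff.mpr fun j _ => hG j
  refine ⟨n, A, ?_, ?_⟩
  · intro h0
    have h1 := hA n (Finset.mem_range.mpr (Nat.lt_succ_self n))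
    rw [h0, map_zero] at h1
    have h2 : (P.coeff n : S) = 0 := by
      rcases mul_eq_zero.mp h1.symm with h2 | h2
      · exact h2
      · exact absurd h2 hprod
    apply hP0
    rw [← leadingCoeff_eq_zero]
    exact Subtype.ext h2
  · have h1 : ∑ l ∈ Finset.range (n + 1), aeval t (A l) * y ^ l =
        (∏ j ∈ Finset.range (n + 1), aeval t (G j)) *
          ∑ l ∈ Finset.range (n + 1), (P.coeff l : S) * y ^ l := by
      rw [Finset.mul_sum]
      apply Finset.sum_congr rfl
      intro l hl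
      rw [hA l hl]
      ring
    rw [h1]
    have h2 : aeval y P = ∑ l ∈ Finset.range (n + 1), (P.coeff l : S) * y ^ l := by
      rw [aeval_eq_sum_range]
      rfl
    rw [← h2, hP, mul_zero]

/-- relations of the same degree -/
theorem exists_rels {S : Type w} [Field S] {κ0 : Subfield S} {t : S} {I : Type} [Finite I]
    {y : I → S} (hy : ∀ i, IsAlgebraic (Subfield.closure ((κ0 : Set S) ∪ {t})) (y i)) :
    ∃ (D m : ℕ) (A : I → ℕ → κ0[X]), 0 < D ∧ (∀ i, A i D ≠ 0) ∧
      (∀ i l, l ≤ D → (A i l).natDegree ≤ m) ∧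
      ∀ i, ∑ l ∈ Finset.range (D + 1), aeval t (A i l) * y i ^ l = 0 := by
  classical
  have := Fintype.ofFinite I
  choose n A hA hA' using fun i => exists_rel (hy i)
  let D := 1 + ∑ i, n i
  have hD : ∀ i, n i ≤ D := fun i =>
    (Finset.single_le_sum (f := n) (fun _ _ => Nat.zero_le _) (Finset.mem_univ i)).trans
      (Nat.le_add_left _ _)
  let B : I → ℕ → κ0[X] := fun i l => if D - n i ≤ l then A i (l - (D - n i)) else 0
  refine ⟨D, ∑ i, ∑ l ∈ Finset.range (D + 1), (B i l).natDegree, B, by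
    change 0 < 1 + _
    omega, fun i => ?_, fun i l hl => ?_, fun i => ?_⟩
  · change (if D - n i ≤ D then A i (D - (D - n i)) else 0) ≠ 0
    rw [if_pos (Nat.sub_le _ _), Nat.sub_sub_self (hD i)]
    exact hA i
  · calc (B i l).natDegree ≤ ∑ l ∈ Finset.range (D + 1), (B i l).natDegree :=
          Finset.single_le_sum (f := fun l => (B i l).natDegree) (fun _ _ => Nat.zero_le _)
            (Finset.mem_range.mpr (Nat.lt_succ_of_le hl))
      _ ≤ _ := Finset.single_le_sum
          (f := fun i => ∑ l ∈ Finset.range (D + 1), (B i l).natDegree)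
            (fun _ _ => Nat.zero_le _) (Finset.mem_univ i)
  · have h1 : D + 1 = (D - n i) + (n i + 1) := by
      have := hD i
      omega
    rw [h1, Finset.sum_range_add]
    have h2 : ∑ l ∈ Finset.range (D - n i), aeval t (B i l) * y i ^ l = 0 := by
      apply Finset.sum_eq_zero
      intro l hl
      have h3 : B i l = 0 := if_neg (by
        have := Finset.mem_range.mp hl
        omega)
      rw [h3, map_zero, zero_mul]
    have h3 : ∑ l ∈ Finset.range (n i + 1), aeval t (B i (D - n i + l)) * y i ^ (D - n i + l) =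
        y i ^ (D - n i) * ∑ l ∈ Finset.range (n i + 1), aeval t (A i l) * y i ^ l := by
      rw [Finset.mul_sum]
      apply Finset.sum_congr rfl
      intro l _
      have h4 : B i (D - n i + l) = A i l := by
        change (if D - n i ≤ D - n i + l then A i (D - n i + l - (D - n i)) else 0) = _
        rw [if_pos (Nat.le_add_right _ _), Nat.add_sub_cancel_left]
      rw [h4, pow_add]
      ring
    rw [h2, h3, hA' i, mul_zero, zero_add]

/-- values of polynomials at congruent points -/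
theorem val_eq_one {C : Type u} [Field C] {κ : Subfield C} {V : ValuationSubring C}
    (hV : ∀ c ∈ κ, c ∈ V) {T t₀ : C} (ht₀ : t₀ ∈ κ) (hT : V.valuation (T - t₀) < 1) {n : ℕ}
    {a : Fin n → C} (ha : ∀ j, a j ∈ κ) (h0 : ∑ j, a j * t₀ ^ (j : ℕ) ≠ 0) :
    V.valuation (∑ j, a j * T ^ (j : ℕ)) = 1 := by
  have hTV : T ∈ V := by
    have h1 : T - t₀ ∈ V := (V.valuation_le_one_iff _).mp hT.le
    have h2 := V.add_mem _ _ h1 (hV _ ht₀)
    rwa [sub_add_cancel] at h2
  have hκ : ∀ c ∈ κ, c ≠ 0 → V.valuation c = 1 := by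
    intro c hc hc0
    have h1 := (V.valuation_le_one_iff _).mpr (hV c hc)
    have h2 := (V.valuation_le_one_iff _).mpr (hV _ (κ.inv_mem hc))
    rw [map_inv₀] at h2
    have h3 : V.valuation c ≠ 0 := by simpa using hc0
    apply le_antisymm h1
    exact (inv_le_one₀ (zero_lt_iff.mpr h3)).mp h2
  let q : V[X] := ∑ j : Fin n, Polynomial.C (⟨a j, hV _ (ha j)⟩ : V) * X ^ (j : ℕ)
  have hq : ∀ x : V, ((q.eval x : V) : C) = ∑ j, a j * (x : C) ^ (j : ℕ) := by
    intro x
    change ((eval x (∑ j : Fin n, Polynomial.C (⟨a j, hV _ (ha j)⟩ : V) * X ^ (j : ℕ)) : V) : C) = _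
    rw [eval_finsetSum, AddSubmonoidClass.coe_finsetSum]
    apply Finset.sum_congr rfl
    intro j _
    rw [eval_mul, eval_C, eval_pow, eval_X]
    rfl
  obtain ⟨r, hr⟩ := sub_dvd_eval_sub (⟨T, hTV⟩ : V) ⟨t₀, hV _ ht₀⟩ q
  have h1 := congrArg (Subtype.val : V → C) hr
  change ((q.eval ⟨T, hTV⟩ : V) : C) - ((q.eval ⟨t₀, hV _ ht₀⟩ : V) : C) = (T - t₀) * (r : C) at h1
  rw [hq, hq] at h1
  change (∑ j, a j * T ^ (j : ℕ)) - ∑ j, a j * t₀ ^ (j : ℕ) = (T - t₀) * (r : C) at h1
  have h2 : V.valuation ((T - t₀) * (r : C)) < 1 := by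
    rw [map_mul]
    calc V.valuation (T - t₀) * V.valuation (r : C) ≤ V.valuation (T - t₀) * 1 := by
          gcongr
          exact (V.valuation_le_one_iff _).mpr r.2
      _ < 1 := by rwa [mul_one]
  have h3 : V.valuation (∑ j, a j * t₀ ^ (j : ℕ)) = 1 := by
    apply hκ _ _ h0
    exact κ.sum_mem fun j _ => κ.mul_mem (ha j) (κ.pow_mem ht₀ _)
  have h4 : ∑ j, a j * T ^ (j : ℕ) = (T - t₀) * (r : C) + ∑ j, a j * t₀ ^ (j : ℕ) := by
    rw [← h1]
    ring
  rw [h4, Valuation.map_add_eq_of_lt_right _ (by rw [h3]; exact h2), h3]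

/-- an integral equation -/
theorem mem_of_rel {C : Type u} [Field C] {V : ValuationSubring C} {D : ℕ} (hD : 0 < D)
    {c : Fin (D + 1) → C} (hc : ∀ l, c l ∈ V) (h1 : V.valuation (c (Fin.last D)) = 1) {y : C}
    (hy : ∑ l, c l * y ^ (l : ℕ) = 0) : y ∈ V := by
  by_contra hyV
  have hv : 1 < V.valuation y := by
    rw [← not_le, V.valuation_le_one_iff]
    exact hyV
  rw [Fin.sum_univ_castSucc] at hy
  have h2 : V.valuation (∑ l : Fin D, c l.castSucc * y ^ (l.castSucc : ℕ)) <
      V.valuation y ^ D := by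
    apply Valuation.map_sum_lt
    · exact (pow_pos (zero_lt_one.trans hv) _).ne'
    · intro l _
      rw [map_mul, map_pow]
      calc V.valuation (c l.castSucc) * V.valuation y ^ (l.castSucc : ℕ)
          ≤ 1 * V.valuation y ^ (l.castSucc : ℕ) := by
            gcongr
            exact (V.valuation_le_one_iff _).mpr (hc _)
        _ = V.valuation y ^ (l : ℕ) := by rw [one_mul]; rfl
        _ < V.valuation y ^ D := pow_lt_pow_right₀ hv l.2
  have h3 : ∑ l : Fin D, c l.castSucc * y ^ (l.castSucc : ℕ) = -(c (Fin.last D) * y ^ D) := by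
    rw [eq_neg_iff_add_eq_zero]
    exact hy
  rw [h3, Valuation.map_neg, map_mul, map_pow, h1, one_mul] at h2
  exact lt_irrefl _ h2

variable {J : Type v} {U : Ultrafilter J} {C : Type u} [Field C] {S : Type w} [Field S]
  {π : (J → C) →+* S}

/-- UP3: relations of bounded degree and a polynomial of bad values. -/
theorem exists_bad [IsAlgClosed C] [CharZero C] (h : UP U π) {κ : Subfield C}
    (_hκ : ∀ x : C, IsAlgebraic κ x → x ∈ κ) {T : C} (_hT : Transcendental κ T)
    {κ0 : Subfield S} (hκ0 : κ0 ≤ h.gsub κ) {I : Type} [Finite I] {g : J → I → C}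
    (hg : ∀ i, IsAlgebraic (Subfield.closure ((κ0 : Set S) ∪ {UP.cst π T})) (π fun a => g a i)) :
    ∃ (M D m' : ℕ) (b' : Fin (M + 1) → S) (b : J → Fin (M + 1) → C), 0 < D ∧
      (∀ l, b' l ∈ κ0) ∧ (∃ l, b' l ≠ 0) ∧ (∀ l, (π fun a => b a l) = b' l) ∧
      ∀ᶠ a in (U : Filter J), (∀ l, b a l ∈ κ) ∧ (∃ l, b a l ≠ 0) ∧
        (∀ V : ValuationSubring C, (∀ c ∈ κ, c ∈ V) → ∀ t₀ ∈ κ, V.valuation (T - t₀) < 1 →
          ∑ l, b a l * t₀ ^ (l : ℕ) ≠ 0 → ∀ i, g a i ∈ V) ∧
        ∀ i, ∃ c : Fin (D + 1) → Fin (m' + 1) → C, (∀ l j, c l j ∈ κ) ∧ c (Fin.last D) ≠ 0 ∧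
          ∑ l, (∑ j, c l j * T ^ (j : ℕ)) * g a i ^ (l : ℕ) = 0 := by
  classical
  have := Fintype.ofFinite I
  obtain ⟨D, m, A, hD, hA0, hAm, hA⟩ := exists_rels hg
  obtain ⟨f, hf, hfc⟩ := h.lift_family (X := κ) (I := I × Fin (D + 1) × Fin (m + 1))
    (c := fun x => ((A x.1 x.2.1).coeff x.2.2 : S)) (fun x => hκ0 (Subtype.coe_prop _))
  let B : (J → C)[X] := ∏ i : I, ∑ j : Fin (m + 1), Polynomial.C (f (i, Fin.last D, j)) * X ^ (j : ℕ)
  let M := B.natDegree
  have hBπ : B.map π = ((∏ i : I, A i D : κ0[X])).map (algebraMap κ0 S) := by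
    rw [Polynomial.map_prod, Polynomial.map_prod]
    apply Finset.prod_congr rfl
    intro i _
    rw [Polynomial.map_sum]
    have h1 : A i D = ∑ j : Fin (m + 1), Polynomial.C ((A i D).coeff j) * X ^ (j : ℕ) := by
      rw [← Finset.sum_range (fun j => Polynomial.C ((A i D).coeff j) * X ^ j)]
      exact as_sum_range_C_mul_X_pow' _ (Nat.lt_succ_of_le (hAm i D le_rfl))
    conv_rhs => rw [h1]
    rw [Polynomial.map_sum]
    apply Finset.sum_congr rfl
    intro j _
    rw [Polynomial.map_mul, Polynomial.map_mul, Polynomial.map_C, Polynomial.map_C,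
      Polynomial.map_pow, Polynomial.map_pow, map_X, map_X, hfc]
    rfl
  have hBe : ∀ a (x : C), ∑ l : Fin (M + 1), (B.coeff l a) * x ^ (l : ℕ) =
      ∏ i : I, ∑ j : Fin (m + 1), f (i, Fin.last D, j) a * x ^ (j : ℕ) := by
    intro a x
    have h1 : eval x (B.map (Pi.evalRingHom (fun _ : J => C) a)) =
        ∏ i : I, ∑ j : Fin (m + 1), f (i, Fin.last D, j) a * x ^ (j : ℕ) := by
      rw [Polynomial.map_prod, eval_prod]
      apply Finset.prod_congr rfl
      intro i _
      rw [Polynomial.map_sum, eval_finsetSum]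
      apply Finset.sum_congr rfl
      intro j _
      rw [Polynomial.map_mul, map_C, Polynomial.map_pow, map_X, eval_mul, eval_C, eval_pow, eval_X]
      rfl
    rw [← h1, eval_eq_sum_range' (n := M + 1) (Nat.lt_succ_of_le natDegree_map_le),
      Finset.sum_range]
    apply Finset.sum_congr rfl
    intro l _
    rw [coeff_map]
    rfl
  have hBκ : ∀ a l, B.coeff l a ∈ κ := by
    intro a l
    have h1 : B.map (Pi.evalRingHom (fun _ : J => C) a) ∈ lifts (algebraMap κ C) := by
      rw [Polynomial.map_prod]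
      apply Subsemiring.prod_mem
      intro i _
      rw [Polynomial.map_sum]
      apply Subsemiring.sum_mem
      intro j _
      rw [Polynomial.map_mul, map_C, Polynomial.map_pow, map_X]
      apply Subsemiring.mul_mem
      · exact C_mem_lifts (algebraMap κ C) ⟨_, hf (i, Fin.last D, j) a⟩
      · exact X_pow_mem_lifts _ _
    rw [lifts_iff_coeff_lifts] at h1
    obtain ⟨c, hc⟩ := h1 l
    rw [coeff_map] at hc
    change (c : C) = B.coeff l a at hc
    rw [← hc]
    exact c.2
  have hb0 : ∃ l : Fin (M + 1), (((∏ i : I, A i D : κ0[X])).coeff l : S) ≠ 0 := by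
    have h1 : (∏ i : I, A i D : κ0[X]) ≠ 0 := Finset.prod_ne_zero_iff.mpr fun i _ => hA0 i
    have h2 : (∏ i : I, A i D : κ0[X]).natDegree ≤ M := by
      rw [← natDegree_map (algebraMap κ0 S), ← hBπ]
      exact natDegree_map_le
    refine ⟨⟨_, Nat.lt_succ_of_le h2⟩, ?_⟩
    intro h3
    apply h1
    rw [← leadingCoeff_eq_zero]
    exact Subtype.ext h3
  have hbπ : ∀ l : Fin (M + 1), (π fun a => B.coeff l a) = (((∏ i : I, A i D : κ0[X])).coeff l : S) := by
    intro l
    have h1 := congrArg (fun q => q.coeff (l : ℕ)) hBπ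
    simp only [coeff_map] at h1
    exact h1
  have hrel : ∀ᶠ a in (U : Filter J), ∀ i, ∑ l : Fin (D + 1), (∑ j : Fin (m + 1),
      f (i, l, j) a * T ^ (j : ℕ)) * g a i ^ (l : ℕ) = 0 := by
    rw [Filter.eventually_all]
    intro i
    have h1 : π (∑ l : Fin (D + 1), (∑ j : Fin (m + 1), f (i, l, j) * (fun _ => T) ^ (j : ℕ)) *
        (fun a => g a i) ^ (l : ℕ)) = 0 := by
      rw [← hA i, Finset.sum_range]
      simp only [map_sum, map_mul, map_pow, hfc]
      apply Finset.sum_congr rfl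
      intro l _
      congr 1
      rw [aeval_eq_sum_range' (n := m + 1) (Nat.lt_succ_of_le (hAm i l (Nat.le_of_lt_succ l.2))),
        Finset.sum_range]
      apply Finset.sum_congr rfl
      intro j _
      rfl
    rw [h.eq0] at h1
    filter_upwards [h1] with a ha
    simpa only [Finset.sum_apply, Pi.mul_apply, Pi.pow_apply] using ha
  have hlead : ∀ᶠ a in (U : Filter J), ∀ i, (fun j : Fin (m + 1) => f (i, Fin.last D, j) a) ≠ 0 := by
    rw [Filter.eventually_all]
    intro i
    have h1 : ∃ j : Fin (m + 1), π (f (i, Fin.last D, j)) ≠ 0 := by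
      refine ⟨⟨(A i D).natDegree, Nat.lt_succ_of_le (hAm i D le_rfl)⟩, ?_⟩
      rw [hfc]
      intro h3
      apply hA0 i
      rw [← leadingCoeff_eq_zero]
      exact Subtype.ext h3
    obtain ⟨j, hj⟩ := h1
    rw [h.ne0] at hj
    filter_upwards [hj] with a ha h0
    exact ha (congrFun h0 j)
  obtain ⟨l₀, hl₀⟩ := hb0
  have hbne : ∀ᶠ a in (U : Filter J), B.coeff l₀ a ≠ 0 := by
    rw [← h.ne0, hbπ l₀]
    exact hl₀
  refine ⟨M, D, m, fun l => (((∏ i : I, A i D : κ0[X])).coeff l : S), fun a l => B.coeff l a, hD,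
    fun l => Subtype.coe_prop _, ⟨l₀, hl₀⟩, hbπ, ?_⟩
  filter_upwards [hrel, hlead, hbne] with a ha ha' hab
  refine ⟨fun l => hBκ a l, ⟨l₀, hab⟩, ?_, ?_⟩
  · intro V hV t₀ ht₀ hTt hne i
    rw [hBe a t₀, Finset.prod_ne_zero_iff] at hne
    have hTV : T ∈ V := by
      have h1 : T - t₀ ∈ V := (V.valuation_le_one_iff _).mp hTt.le
      have h2 := V.add_mem _ _ h1 (hV _ ht₀)
      rwa [sub_add_cancel] at h2
    apply mem_of_rel hD (c := fun l => ∑ j : Fin (m + 1), f (i, l, j) a * T ^ (j : ℕ)) _ _ (ha i)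
    · intro l
      exact sum_mem fun j _ => mul_mem (hV _ (hf _ a)) (pow_mem hTV _)
    · exact val_eq_one hV ht₀ hTt (fun j => hf _ a) (hne i (Finset.mem_univ i))
  · intro i
    exact ⟨fun l j => f (i, l, j) a, fun l j => hf _ a, ha' i, ha i⟩

end Pool.Agent.PC
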